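import Pool.Agent.BEW.StmtsA

/-!
# BEW, row MCR: mean values of powers of the absolute value of the cosine
-/

set_option autoImplicit false

namespace Pool.Agent.BEW.H60

open Set Filter Topology MeasureTheory
open Pool.Agent.BEW

theorem hd (al : ℝ) (hal : 0 < al) (s : ℝ) :
    HasDerivAt (fun x : ℝ => |x| ^ al * x) ((al + 1) * |s| ^ al) s := by
  rcases lt_trichotomy s 0 with hs | hs | hs
  · have hs' : -s ≠ 0 := by linarith
    have h1 : HasDerivAt (fun x : ℝ => (-x) ^ (al + 1)) (-1 * (al + 1) * (-s) ^ (al + 1 - 1)) s :=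
      (hasDerivAt_neg s).rpow_const (Or.inl hs')
    have h2 := h1.neg
    have h3 : (fun x : ℝ => |x| ^ al * x) =ᶠ[𝓝 s] fun x => -((-x) ^ (al + 1)) := by
      filter_upwards [Iio_mem_nhds hs] with x hx
      have hx' : x < 0 := hx
      have hx2 : -x ≠ 0 := by linarith
      rw [abs_of_neg hx', Real.rpow_add_one hx2, mul_neg, neg_neg]
    refine (h2.congr_of_eventuallyEq h3).congr_deriv ?_
    rw [abs_of_neg hs, add_sub_cancel_right]
    ring
  · subst hs
    rw [hasDerivAt_iff_isLittleO_nhds_zero]
    have h1 : Tendsto (fun h : ℝ => |h| ^ al) (𝓝 0) (𝓝 0) := by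
      have h2 : Continuous (fun h : ℝ => |h| ^ al) :=
        continuous_abs.rpow_const (fun _ => Or.inr hal.le)
      have h3 := h2.tendsto 0
      simpa [Real.zero_rpow hal.ne'] using h3
    have h2 : (fun h : ℝ => |h| ^ al) =o[𝓝 0] (fun _ : ℝ => (1 : ℝ)) :=
      (Asymptotics.isLittleO_one_iff ℝ).2 h1
    have h3 := h2.mul_isBigO (Asymptotics.isBigO_refl (fun h : ℝ => h) (𝓝 0))
    simpa [Real.zero_rpow hal.ne'] using h3
  · have h1 : HasDerivAt (fun x : ℝ => x ^ (al + 1)) (1 * (al + 1) * s ^ (al + 1 - 1)) s :=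
      (hasDerivAt_id s).rpow_const (Or.inl hs.ne')
    have h3 : (fun x : ℝ => |x| ^ al * x) =ᶠ[𝓝 s] fun x => x ^ (al + 1) := by
      filter_upwards [Ioi_mem_nhds hs] with x hx
      have hx' : 0 < x := hx
      rw [abs_of_pos hx', Real.rpow_add_one hx'.ne']
    refine (h1.congr_of_eventuallyEq h3).congr_deriv ?_
    rw [abs_of_pos hs, add_sub_cancel_right, one_mul]

theorem cont_pow (q : ℝ) (hq : 0 < q) : Continuous (fun θ : ℝ => |Real.cos θ| ^ q) :=
  (continuous_abs.comp Real.continuous_cos).rpow_const (fun _ => Or.inr hq.le)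

/-- **MCR** -/
theorem mcr : McrStmt := by
  intro al hal
  have hpi := Real.pi_pos
  constructor
  · unfold mc
    apply mul_pos
    · positivity
    · apply intervalIntegral.integral_pos (by positivity) (cont_pow al hal).continuousOn
      · intro θ _
        positivity
      · refine ⟨0, ⟨le_refl _, by positivity⟩, ?_⟩
        rw [Real.cos_zero, abs_one, Real.one_rpow]
        exact one_pos
  · have hder : ∀ θ ∈ uIcc (0 : ℝ) (2 * Real.pi),
        HasDerivAt (fun θ : ℝ => (|Real.cos θ| ^ al * Real.cos θ) * Real.sin θ)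
          ((al + 2) * |Real.cos θ| ^ (al + 2) - (al + 1) * |Real.cos θ| ^ al) θ := by
      intro θ _
      have h1 : HasDerivAt (fun θ : ℝ => |Real.cos θ| ^ al * Real.cos θ)
          ((al + 1) * |Real.cos θ| ^ al * (-Real.sin θ)) θ :=
        (hd al hal (Real.cos θ)).comp θ (Real.hasDerivAt_cos θ)
      have h2 := h1.mul (Real.hasDerivAt_sin θ)
      refine h2.congr_deriv ?_
      have h3 : |Real.cos θ| ^ (al + 2) = |Real.cos θ| ^ al * Real.cos θ ^ 2 := by
        rw [Real.rpow_add' (abs_nonneg _) (by linarith), Real.rpow_two, sq_abs]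
      have h4 := Real.sin_sq_add_cos_sq θ
      rw [h3]
      linear_combination (-(al + 1) * |Real.cos θ| ^ al) * h4
    have hc1 : Continuous (fun θ : ℝ => (al + 2) * |Real.cos θ| ^ (al + 2)) :=
      continuous_const.mul (cont_pow (al + 2) (by linarith))
    have hc2 : Continuous (fun θ : ℝ => (al + 1) * |Real.cos θ| ^ al) :=
      continuous_const.mul (cont_pow al hal)
    have h5 := intervalIntegral.integral_eq_sub_of_hasDerivAt hder
      ((hc1.sub hc2).intervalIntegrable _ _)
    rw [intervalIntegral.integral_sub (hc1.intervalIntegrable _ _) (hc2.intervalIntegrable _ _),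
      intervalIntegral.integral_const_mul, intervalIntegral.integral_const_mul,
      Real.sin_two_pi, Real.sin_zero, mul_zero, mul_zero, sub_zero] at h5
    unfold mc
    linear_combination (1 / (2 * Real.pi)) * h5

end Pool.Agent.BEW.H60
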